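import Pool.Agent.H27.ZF.TB
import Pool.Agent.H68.ZS.TA

/-!
Board zr (MP_52e316_nt): Ramanujan's bounds up to epsilon for the small primes, for almost all forms, and the
logarithm of the L-function as under the Riemann hypothesis. The targets.
-/

set_option autoImplicit false

namespace Pool.Agent.H12.ZR

open MeasureTheory Pool.Agent.H27.L1.H34.GM Pool.Agent.H27.L1.H34.GZ Pool.Agent.H27.L1.H34.GU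
  Pool.Agent.H27.L1.H34.GA Pool.Agent.H27.ZF Pool.Agent.H68.ZS

/-! ### one Hecke operator -/

open Classical in
/-- the majorant of the kernel of the Hecke operator `n` -/
noncomputable def Kn {m N : ℕ} (n : ℕ) (d : ℝ) (g : Mat m) (x : VN m N) (h : Mat m) (w : VN m N) :
    ENNReal :=
  ∑' γ : ZM m, if ac N γ x = w ∧ Pr w ∧ γ.det.natAbs = n ∧
    sz (kk (aN (cR γ)) h (cR γ) g - 1) ≤ d then (1 : ENNReal) else 0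

/-- the energy at `g` -/
noncomputable def En {m : ℕ} (N : ℕ) [NeZero N] (D : Set (V m)) (n : ℕ) (d : ℝ) (g : Mat m) :
    ENNReal :=
  ∑ x : VN m N, ∫⁻ h in D, ∑ w : VN m N, (Kn n d g x (mt h) w) ^ 2 ∂(hm m)

open Classical in
/-- the square of the majorant (copy of `T_H2D`) -/
def T_H2N : Prop := ∀ m : ℕ, 1 ≤ m → ∃ C C0 : ℝ, 0 < C ∧ 0 ≤ C0 ∧
  ∀ (N : ℕ) [NeZero N] (D : Set (V m)), 1 ≤ N → DomZ m D → ∀ (n : ℕ) (d : ℝ), 1 ≤ n →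
  0 < d → d ≤ 1 / 2 →
  ∀ (b n' : Mat m) (a : Fin m → ℝ) (k : Mat m), Sgl b n' a k →
  ∀ (sel : AddSubgroup (Fin m → ℤ) → ZM m) (vs : AddSubgroup (Fin m → ℤ) → Fin m → ℝ),
  Sel b sel vs → ∀ x : VN m N, Pr x →
    ∫⁻ h in D, ∑ z : VN m N, (Kn n d b x (mt h) z) ^ 2 ∂(hm m) ≤
      ENNReal.ofReal (C * d ^ (m ^ 2 - 1)) * ∑' L : AddSubgroup (Fin m → ℤ),
        (if L.index = n then
          ENNReal.ofReal (∏ i, ∏ j, (1 + C0 * d * vs L i / vs (kl x) j)) else 0)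

open Classical in
/-- the energy of two sublattices (copy of `T_EMD`, with `T_CNX` for both lattices) -/
def T_EMN : Prop := ∀ m : ℕ, 1 ≤ m → ∀ C0 ε : ℝ, 0 ≤ C0 → 0 < ε → ∃ (C : ℝ) (K : ℕ), 0 < C ∧
  ∀ d : ℝ, 0 < d → d ≤ 1 →
  ∀ (N : ℕ), 1 ≤ N → ∀ (b n' : Mat m) (a : Fin m → ℝ) (k : Mat m), Sgl b n' a k →
  1 ≤ aN b → aN b < Real.exp 1 → ∀ Y : ℝ, 1 ≤ Y →
  (∀ i j : Fin m, (i : ℕ) + 1 = j → a j ≤ Y * a i) → ∀ n : ℕ, 1 ≤ n →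
  ∀ (sel : AddSubgroup (Fin m → ℤ) → ZM m) (vs : AddSubgroup (Fin m → ℤ) → Fin m → ℝ),
  Sel b sel vs →
    ∑' M : AddSubgroup (Fin m → ℤ), ∑' L : AddSubgroup (Fin m → ℤ),
      (if M.index = N ∧ L.index = n then
        ENNReal.ofReal (∏ i, ∏ j, (1 + C0 * d * vs L i / vs M j)) else 0) ≤
      ENNReal.ofReal (C * (1 + Real.log (n * Y * N)) ^ K * (N : ℝ) ^ ((m : ℝ) - 1 + ε) *
        (n : ℝ) ^ ((m : ℝ) - 1 + ε) * (1 + d ^ m * n / N) ^ m * skw a)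

/-- the energy on `DY` (copy of `T_ENG` without the average over the window) -/
def T_ENN : Prop := ∀ m : ℕ, 1 ≤ m → ∀ ε : ℝ, 0 < ε → ∃ (C : ℝ) (K : ℕ), 0 < C ∧
  ∀ (N : ℕ) [NeZero N] (D : Set (V m)), 1 ≤ N → DomZ m D → ∀ (n : ℕ) (Y d : ℝ), 1 ≤ n → 2 ≤ Y →
  0 < d → d ≤ 1 / 2 →
    ∫⁻ g in DY D Y, En N D n d (mt g) ∂(hm m) ≤
      ENNReal.ofReal (C * d ^ (m ^ 2 - 1) * (N : ℝ) ^ ((m : ℝ) + ε) *
        (1 + Real.log (n * Y * N)) ^ K * (n : ℝ) ^ ((m : ℝ) - 1 + ε) * (1 + d ^ m * n / N) ^ m)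

/-- the inequality of Bessel for one coefficient, with the weights `W i`, on `DY D Y` -/
def BESN (m : ℕ) {ι : Type} [Fintype ι] (W : ι → ENNReal) (lam : ι → ℕ → ℂ) (N : ℕ) [NeZero N]
    (D : Set (V m)) (χ : ℝ → ℝ) (c δ Y : ℝ) : Prop :=
  ∀ n : ℕ, 1 ≤ n →
    ENNReal.ofReal (c * tb m χ δ ^ 2) * ∑ i, W i *
      ENNReal.ofReal (‖(n : ℂ) ^ (((m : ℂ) - 1) / 2) * lam i n‖ ^ 2) ≤
      ∫⁻ g in DY D Y, En N D n δ (mt g) ∂(hm m)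

/-- for orthonormal forms, weights `1` (copy of `T_BO1`) -/
def T_BON : Prop := ∀ (m : ℕ) (χ : ℝ → ℝ), 1 ≤ m → Prof χ → ∃ (c C : ℝ) (A : ℕ), 0 < c ∧ 1 ≤ C ∧
  ∀ (N : ℕ) [NeZero N] (T : ℕ → Finset (ZM m)) (D : Set (V m)), SysZ m N T D →
  ∀ (ι : Type) [Fintype ι] [DecidableEq ι] (F : ι → Mat m → VN m N → ℂ) (lam : ι → ℕ → ℂ) (P : ℝ),
  (∀ i, CusB m N T (F i) (lam i) ∧ Lip D (F i) P ∧ nU D (F i) = 1) → Orthn D F → 0 ≤ P →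
  ∀ δ : ℝ, 0 < δ → δ ≤ 1 / 2 → δ * (1 + P) ≤ c →
  ∀ Y : ℝ, C * N * δ⁻¹ ^ A ≤ Y → BESN m (fun _ => 1) lam N D χ c δ Y

/-- for forms which generate orthogonal spaces, weights `≤ 1 / Hn` (copy of `T_BW1`) -/
def T_BWN : Prop := ∀ (m : ℕ) (χ : ℝ → ℝ) (r : ℝ), 1 ≤ m → Prof χ → 0 < r →
  ∃ (c C : ℝ) (A : ℕ), 0 < c ∧ 1 ≤ C ∧
  ∀ (N : ℕ) [NeZero N] (T : ℕ → Finset (ZM m)) (D : Set (V m)), SysZ m N T D →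
  ∀ (ι : Type) [Fintype ι] [DecidableEq ι] (F : ι → Mat m → VN m N → ℂ) (lam : ι → ℕ → ℂ) (P : ℝ),
  (∀ i, CusB m N T (F i) (lam i) ∧ Lip D (F i) P) → Pool.Agent.H27.L1.H68.GHK.OrS D F → 0 ≤ P →
  ∀ δ : ℝ, 0 < δ → δ ≤ 1 / 2 → δ * (1 + P) ≤ c →
  ∀ Y : ℝ, C * N * δ⁻¹ ^ A ≤ Y →
    BESN m (fun i => ENNReal.ofReal (Pool.Agent.H27.L1.H68.GHK.Hn r D (F i))⁻¹) lam N D χ c δ Y

/-- Ramanujan's conjecture on average, for every coefficient up to the conductor -/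
def T_SNG : Prop := ∀ (m : ℕ) (ε : ℝ), 1 ≤ m → 0 < ε → ∃ C : ℝ, 0 < C ∧
  ∀ (N : ℕ) [NeZero N] (T : ℕ → Finset (ZM m)) (D : Set (V m)), SysZ m N T D →
  ∀ P : ℝ, 1 ≤ P → ∀ (S : Type) [Fintype S] [DecidableEq S] (F : S → Mat m → VN m N → ℂ)
    (lam : S → ℕ → ℂ) (W : S → ℝ), Fam T D P F lam W →
  ∀ n : ℕ, 1 ≤ n → (n : ℝ) ≤ N * P ^ m →
    (∑ i, W i * ‖lam i n‖ ^ 2) * P ≤ C * ((N : ℝ) * P) ^ ε * ((N : ℝ) ^ m * P ^ (m ^ 2))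

/-! ### the small primes -/

/-- Ramanujan's bounds up to `e` for the primes up to `z` -/
def Rb (m : ℕ) (lam : ℕ → ℂ) (z e : ℝ) : Prop := ∀ p : ℕ, p.Prime → (p : ℝ) ≤ z → ∀ k : ℕ,
  ‖lam (p ^ k)‖ ≤ ((m + k).choose k : ℝ) * (p : ℝ) ^ (k * e)

open Classical in
/-- the forms which do not satisfy them -/
def T_BRB : Prop := ∀ (m : ℕ) (e : ℝ), 1 ≤ m → 0 < e → ∃ c C : ℝ, 0 < c ∧ 0 < C ∧
  ∀ (N : ℕ) [NeZero N] (T : ℕ → Finset (ZM m)) (D : Set (V m)), SysZ m N T D →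
  ∀ P : ℝ, 1 ≤ P → ∀ (S : Type) [Fintype S] [DecidableEq S] (F : S → Mat m → VN m N → ℂ)
    (lam : S → ℕ → ℂ) (W : S → ℝ), Fam T D P F lam W →
    (∑ i, (if Rb m (lam i) (((N : ℝ) * P ^ m) ^ c) e then 0 else W i)) * P ≤
      C * ((N : ℝ) * P ^ m) ^ ((m : ℝ) - c)

/-- the size of the logarithm of the L-function under the Riemann hypothesis and Ramanujan's conjecture -/
noncomputable def gy (e Y : ℝ) (s : ℂ) : ℝ := (1 + Real.log Y) ^ (max (2 - 2 * s.re) 0 + e)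

/-- the logarithm of the product of the inverses of the local factors (copy of `T_PRS`) -/
def T_PRR : Prop := ∀ (m : ℕ) (d e B : ℝ), 1 ≤ m → 0 < d → d ≤ 1 / 2 → 0 < e → e < d → 1 ≤ B →
  ∃ c e1 C Q0 : ℝ, 0 < c ∧ 0 < e1 ∧ 0 < C ∧ 1 ≤ Q0 ∧
  ∀ (lam : ℕ → ℂ) (q : ℕ → ℕ → ℂ) (Q : ℝ), Q0 ≤ Q →
  Eul m lam q → Sq lam Q (Q ^ (2 * c)) → Rb m lam (Real.log Q ^ 2) e1 →
  ∀ z : ℝ, z ^ (4 * m) ≤ Q → ∀ s : ℂ, 1 / 2 + d ≤ s.re →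
    s.re ≤ B → Dp m lam Q (Real.log Q ^ 2) z (Q ^ c) s →
    0 < ‖∏ p ∈ (Finset.range (⌊z⌋₊ + 1)).filter Nat.Prime, qv m (q p) ((p : ℂ) ^ (-s))‖ ∧
    |Real.log ‖∏ p ∈ (Finset.range (⌊z⌋₊ + 1)).filter Nat.Prime, qv m (q p) ((p : ℂ) ^ (-s))‖| ≤
      C * gy e Q s

/-- the logarithm of the L-function, all `s` with imaginary part `t` (copy of `T_NZS`) -/
def T_NRR : Prop := ∀ (m : ℕ) (d e C0 : ℝ), 1 ≤ m → 0 < d → d ≤ 1 / 2 → 0 < e → 1 ≤ C0 →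
  ∃ c e1 C B Q0 : ℝ, 0 < c ∧ 0 < e1 ∧ 0 < C ∧ 1 ≤ B ∧ 1 ≤ Q0 ∧
  ∀ (lam : ℕ → ℂ) (q : ℕ → ℕ → ℂ) (L : ℂ → ℂ) (Q t : ℝ), Q0 ≤ Q → Eul m lam q →
  (∀ n : ℕ, 1 ≤ n → ‖lam n‖ ≤ C0 * (n : ℝ) ^ m) → Differentiable ℂ L →
  (∀ s : ℂ, (m : ℝ) + 2 < s.re →
    HasSum (fun n : ℕ => if 1 ≤ n then lam n * (n : ℂ) ^ (-s) else 0) (L s)) →
  Sq lam Q (Q ^ (2 * c)) → Rb m lam (Real.log Q ^ 2) e1 →
  (∀ s : ℂ, 1 / 2 + d / 2 ≤ s.re → s.re ≤ B → |s.im - t| ≤ B →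
    ‖L s‖ ≤ Q ^ c ∧ Dp m lam Q (Real.log Q ^ 2) (Q ^ (1 / (4 * (m : ℝ)))) (Q ^ c) s) →
  ∀ s : ℂ, 1 / 2 + d ≤ s.re → s.im = t →
    Real.exp (-(C * gy e Q s)) ≤ ‖L s‖ ∧ ‖L s‖ ≤ Real.exp (C * gy e Q s)

open Classical in
/-- one level: few pairs of a form and a window where the logarithm of the L-function is large -/
def T_ZR1 : Prop := ∀ (m : ℕ) (d e : ℝ), 1 ≤ m → 0 < d → 0 < e → ∃ c A C : ℝ, 0 < c ∧ 0 < A ∧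
  0 < C ∧ ∀ (N : ℕ) [NeZero N] (T : ℕ → Finset (ZM m)) (D : Set (V m)), SysZ m N T D →
  ∀ P : ℝ, 1 ≤ P → ∀ (S : Type) [Fintype S] [DecidableEq S] (F : S → Mat m → VN m N → ℂ)
    (lam : S → ℕ → ℂ) (W : S → ℝ), Fam T D P F lam W →
  ∀ L : S → ℂ → ℂ, (∀ i, IsL m 1 (lam i) (L i)) →
    ∑ i, W i * (((Finset.Icc (-⌊P⌋) ⌊P⌋).filter (fun k : ℤ => ∃ s : ℂ, 1 / 2 + d ≤ s.re ∧
      |s.im - k| ≤ 1 ∧ (‖L i s‖ < Real.exp (-(A * gy e (N * P ^ m) s)) ∨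
        Real.exp (A * gy e (N * P ^ m) s) < ‖L i s‖))).card : ℝ) ≤
      C * ((N : ℝ) * P ^ m) ^ ((m : ℝ) - c)

end Pool.Agent.H12.ZR
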