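import Pool.Agent.H12.ZR.EMN
import Pool.Agent.H20.LX.T
import Pool.Agent.H27.L1.H16.GHY.WR
import Pool.Agent.H27.L1.All

/-!
Boards zr and lx: the rows EMN and EMX without hypotheses.
-/

set_option autoImplicit false

namespace Pool.Agent.H12.ZR

theorem c_EMN : T_EMN :=
  pf_EMN_of (Pool.Agent.H27.L1.H16.GB.pf_EG3D Pool.Agent.H27.L1.H16.GHY.in3)
    Pool.Agent.H27.L1.H34.GU.b_CNX Pool.Agent.H27.L1.H34.GZ.a_CNT
    Pool.Agent.H27.L1.H34.GZ.a_CMA Pool.Agent.H27.L1.H34.GZ.a_IDX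
    Pool.Agent.H27.L1.H34.GZ.a_MUL

theorem c_EMX : Pool.Agent.H20.LX.T_EMX := c_EMN

end Pool.Agent.H12.ZR
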